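import Pool.Agent.Y192.OG.StE
import Pool.Agent.W419.PG.DIVR

/-!
# Job OG-E5 (project OG of helper192): derivations at places over a place of a subfield
-/

set_option autoImplicit false
set_option linter.overlappingInstances false
set_option linter.unusedSectionVars false

open Polynomial FF

namespace Pool.Agent.Y447.OG

open Pool.Agent.W603.LV Pool.Agent.W619.PQ Pool.Agent.Y192.OG

section

variable {k F K : Type} [Field k] [CharZero k] [Field F] [Field K] [Algebra k F] [Algebra k K]
  [Algebra F K] [IsScalarTower k F K] [FiniteDimensional F K] {q : Place k F} {P : Place k K}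
  {e : ℕ}

/-- evaluation of polynomials over the valuation ring of `q` -/
noncomputable def ev (q : Place k F) (r : K) : q.O[X] →+* K :=
  Polynomial.eval₂RingHom ((algebraMap F K).comp q.O.subtype) r

theorem ev_monomial (q : Place k F) (r : K) (n : ℕ) (a : q.O) :
    ev q r (monomial n a) = algebraMap F K (a : F) * r ^ n := by
  unfold ev
  rw [coe_eval₂RingHom, eval₂_monomial]
  rfl

theorem reg_pow {r : K} (hr : P.Reg r) (n : ℕ) : P.Reg (r ^ n) := by
  have := Ge.pow (N := 0) (P := P) hr n
  rwa [mul_zero] at this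

theorem ev_reg (hov : Over P q e) {r : K} (hr : P.Reg r) (p : q.O[X]) : P.Reg (ev q r p) := by
  induction p using Polynomial.induction_on' with
  | add p p' hp hp' => rw [map_add]; exact P.reg_add hp hp'
  | monomial n a =>
    rw [ev_monomial]
    exact P.reg_mul (hov.reg.2 a.2) (reg_pow hr n)

/-- residues of values of polynomials -/
theorem red_ev (hov : Over P q e) {r : K} (hr : P.Reg r) (p : q.O[X]) :
    P.red (ev q r p) = (p.map q.resHom).eval₂ hov.resMap.toRingHom (P.red r) := by
  induction p using Polynomial.induction_on' with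
  | add p p' hp hp' =>
    rw [map_add, P.red_add (ev_reg hov hr p) (ev_reg hov hr p'), hp, hp', Polynomial.map_add,
      eval₂_add]
  | monomial n a =>
    rw [ev_monomial, P.red_mul (hov.reg.2 a.2) (reg_pow hr n), P.red_pow hr, map_monomial,
      eval₂_monomial, ← hov.resMap_red a.2, q.red_of_reg a.2]
    rfl

/-- residues are algebraic -/
theorem red_alg (hov : Over P q e) (r : K) (hr : P.Reg r) :
    letI := hov.resMap.toRingHom.toAlgebra
    IsAlgebraic q.RF (P.red r) := by
  let iA : Algebra q.RF P.RF := hov.resMap.toRingHom.toAlgebra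
  by_contra hcon
  have h1 : AlgebraicIndependent q.RF (fun _ : Unit => P.red r) :=
    (algebraicIndependent_unique_type_iff).2 hcon
  have h2 := Pool.Agent.W419.PG.lift_indep q P e hov (fun _ => rfl) (fun _ : Unit => r)
    (fun _ => hr) h1
  have h3 : Transcendental F r := (algebraicIndependent_unique_type_iff).1 h2
  exact h3 (Algebra.IsAlgebraic.isAlgebraic r)

/-- a polynomial whose value is small and whose derivative has a unit as value -/
theorem exists_small (hov : Over P q e) (r : K) (hr : P.Reg r) :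
    ∃ m : q.O[X], Ge P 1 (ev q r m) ∧ ev q r (derivative m) ≠ 0 ∧
      P.ord (ev q r (derivative m)) = 0 := by
  let iA : Algebra q.RF P.RF := hov.resMap.toRingHom.toAlgebra
  have hchar : CharZero q.RF := charZero_of_injective_algebraMap (algebraMap k q.RF).injective
  have halg : IsAlgebraic q.RF (P.red r) := red_alg hov r hr
  have hint : IsIntegral q.RF (P.red r) := halg.isIntegral
  obtain ⟨m, hm⟩ := Polynomial.map_surjective q.resHom q.resHom_surjective
    (minpoly q.RF (P.red r))
  have h1 : P.red (ev q r m) = 0 := by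
    rw [red_ev hov hr, hm]
    exact minpoly.aeval q.RF (P.red r)
  have h2 : P.red (ev q r (derivative m)) ≠ 0 := by
    rw [red_ev hov hr, ← derivative_map, hm]
    exact (minpoly.irreducible hint).separable.aeval_derivative_ne_zero (minpoly.aeval _ _)
  have h3 : ev q r (derivative m) ≠ 0 := by
    intro h0
    rw [h0, P.red_zero] at h2
    exact h2 rfl
  refine ⟨m, (P.red_eq_zero_iff (ev_reg hov hr m)).1 h1, h3, ?_⟩
  have h4 := ev_reg hov hr (derivative m)
  have h5 := (P.reg_iff h3).1 h4
  have h6 : ¬ (ev q r (derivative m) = 0 ∨ 0 < P.ord (ev q r (derivative m))) := by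
    rw [← P.red_eq_zero_iff h4]
    exact h2
  push Not at h6
  omega

theorem D_mul (D : Derivation ℤ K K) (a b : K) : D (a * b) = a * D b + b * D a := by
  rw [D.leibniz]
  rfl

theorem D_pow (D : Derivation ℤ K K) (a : K) (n : ℕ) :
    D (a ^ n) = n * a ^ (n - 1) * D a := by
  rw [D.leibniz_pow]
  simp [nsmul_eq_mul, mul_assoc]

theorem D_ev (hov : Over P q e) (D : Derivation ℤ K K)
    (hD : ∀ g : F, q.Reg g → P.Reg (D (algebraMap F K g))) {r : K} (hr : P.Reg r) (p : q.O[X]) :
    Ge P 0 (D (ev q r p) - ev q r (derivative p) * D r) := by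
  induction p using Polynomial.induction_on' with
  | add p p' hp hp' =>
    have := Ge.add hp hp'
    convert this using 1
    rw [map_add, map_add, derivative_add, map_add]
    ring
  | monomial n a =>
    rw [derivative_monomial, ev_monomial, ev_monomial, D_mul, D_pow]
    have h1 : Ge P 0 (r ^ n * D (algebraMap F K (a : F))) := P.reg_mul (reg_pow hr n) (hD _ a.2)
    convert h1 using 1
    have h2 : algebraMap F K ((a * (n : q.O) : q.O) : F) = algebraMap F K (a : F) * n := by
      have h3 : ((a * (n : q.O) : q.O) : F) = (a : F) * (n : F) := by simp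
      rw [h3, map_mul, map_natCast]
    rw [h2]
    ring

/-- the improvement step -/
theorem step (hov : Over P q e) (D : Derivation ℤ K K)
    (hD : ∀ g : F, q.Reg g → P.Reg (D (algebraMap F K g))) (C : ℤ) (hC : C ≤ 0)
    (π : K) (hπ0 : π ≠ 0) (hπ : P.ord π = 1)
    (hpi : ∀ r, P.Reg r → Ge P C (D (π * r))) :
    ∀ r, P.Reg r → Ge P C (D r) := by
  intro r hr
  obtain ⟨m, hm, hm0, hm1⟩ := exists_small hov r hr
  have h1 : P.Reg (ev q r m / π) := by
    apply Ge.of_mul' (h := π) (m := 1) hπ0 hπ
    rw [mul_div_cancel₀ _ hπ0]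
    simpa using hm
  have h2 := hpi _ h1
  rw [mul_div_cancel₀ _ hπ0] at h2
  have h3 := h2.sub ((D_ev hov D hD hr m).mono hC)
  rw [sub_sub_cancel] at h3
  exact Ge.of_mul' (m := 0) hm0 hm1 (by simpa using h3)

/-- boundedness -/
theorem bdd (hov : Over P q e) (D : Derivation ℤ K K)
    (hD : ∀ g : F, q.Reg g → P.Reg (D (algebraMap F K g))) :
    ∃ C : ℕ, ∀ r, P.Reg r → Ge P (-(C : ℤ)) (D r) := by
  classical
  let iA : Algebra q.O K := algO q
  have : IsDiscreteValuationRing q.O := q.isDVR
  have : CharZero F := charZero_of_injective_algebraMap (algebraMap k F).injective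
  have : IsScalarTower q.O F K := IsScalarTower.of_algebraMap_eq fun _ => rfl
  let B := integralClosure q.O K
  have hfin : Module.Finite q.O B := IsIntegralClosure.finite q.O F K B
  obtain ⟨S, hS⟩ := hfin.fg_top
  let C : ℕ := ∑ b ∈ S, (P.ord (D (b : K))).natAbs
  have hreg : ∀ x : B, P.Reg (x : K) := fun x =>
    P.reg_of_isIntegral (A := q.O) (fun a => hov.reg.2 a.2) x.2
  have key : ∀ z : B, Ge P (-(C : ℤ)) (D (z : K)) := by
    intro z
    have hz : z ∈ Submodule.span q.O (S : Set B) := by rw [hS]; trivial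
    induction hz using Submodule.span_induction with
    | mem b hb =>
      right
      have h1 : (P.ord (D (b : K))).natAbs ≤ C :=
        Finset.single_le_sum (f := fun b : B => (P.ord (D (b : K))).natAbs)
          (fun _ _ => Nat.zero_le _) hb
      omega
    | zero =>
      left
      simp
    | add x y _ _ hx hy =>
      have := hx.add hy
      rwa [← map_add] at this
    | smul a x _ hx =>
      have h1 : ((a • x : B) : K) = algebraMap F K (a : F) * (x : K) := rfl
      rw [h1, D_mul]
      have h2 : Ge P 0 (algebraMap F K (a : F)) := hov.reg.2 a.2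
      have h3 := h2.mul hx
      rw [zero_add] at h3
      have h4 : Ge P 0 ((x : K) * D (algebraMap F K (a : F))) := P.reg_mul (hreg x) (hD _ a.2)
      exact h3.add (h4.mono (by omega))
  refine ⟨C, fun r hr => ?_⟩
  have hfo := Pool.Agent.Y172.finite_over (K' := K) q
  let S' : Finset (Place k K) := hfo.toFinset.erase P
  have hPS : P ∉ S' := Finset.notMem_erase _ _
  let N : ℕ := 1 + ∑ Q ∈ S', (Q.ord r).natAbs
  obtain ⟨s, hs1, hs2⟩ := approx_one S' P hPS 1 (N : ℤ)
  have hN1 : (1 : ℤ) ≤ N := by
    have : 1 ≤ N := Nat.le_add_right _ _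
    exact_mod_cast this
  have hs : s ≠ 0 ∧ P.ord s = 0 := by
    by_cases h0 : s - 1 = 0
    · have : s = 1 := sub_eq_zero.1 h0
      rw [this]
      exact ⟨one_ne_zero, P.ord_one⟩
    · have h1 := hs1.resolve_left h0
      have h2 := ord_one_add_of_pos h0 (by omega : 0 < P.ord (s - 1))
      rwa [add_sub_cancel] at h2
  have hmemS' : ∀ (w : Place k K) (e' : ℕ), Over w q e' → w ≠ P → w ∈ S' := by
    intro w e' hw hne
    exact Finset.mem_erase.2 ⟨hne, (Set.Finite.mem_toFinset hfo).2 ⟨e', hw⟩⟩
  have hsint : IsIntegral q.O s := by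
    apply isIntegral_of_reg q s
    intro w e' hw
    by_cases hne : w = P
    · rw [hne]
      exact Or.inr hs.2.ge
    · exact (hs2 w (hmemS' w e' hw hne)).mono (by omega)
  have hsrint : IsIntegral q.O (s * r) := by
    apply isIntegral_of_reg q (s * r)
    intro w e' hw
    by_cases hne : w = P
    · rw [hne]
      exact P.reg_mul (Or.inr hs.2.ge) hr
    · have hmem := hmemS' w e' hw hne
      have h1 : (w.ord r).natAbs ≤ ∑ Q ∈ S', (Q.ord r).natAbs :=
        Finset.single_le_sum (f := fun Q : Place k K => (Q.ord r).natAbs)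
          (fun _ _ => Nat.zero_le _) hmem
      have h2 : Ge w (-(N : ℤ)) r := by
        right
        have : (N : ℤ) = 1 + ∑ Q ∈ S', ((Q.ord r).natAbs : ℤ) := by
          simp only [N]
          push_cast
          rfl
        have h3 : (((w.ord r).natAbs : ℕ) : ℤ) ≤ ((∑ Q ∈ S', (Q.ord r).natAbs : ℕ) : ℤ) := by
          exact_mod_cast h1
        push_cast at h3
        omega
      have h3 := (hs2 w hmem).mul h2
      rwa [add_neg_cancel] at h3
  have k1 := key ⟨s, hsint⟩
  have k2 := key ⟨s * r, hsrint⟩
  simp only at k1 k2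
  rw [D_mul] at k2
  have k3 : Ge P 0 r := hr
  have k4 := k3.mul k1
  rw [zero_add] at k4
  have k5 := k2.sub k4
  rw [add_sub_cancel_right] at k5
  exact Ge.of_mul' (m := 0) hs.1 hs.2 (by simpa using k5)

/-! ## logarithmic derivatives -/

theorem ld_mul (D : Derivation ℤ K K) {a b : K} (ha : a ≠ 0) (hb : b ≠ 0) :
    D (a * b) / (a * b) = D a / a + D b / b := by
  rw [D_mul]
  field_simp
  ring

theorem ld_pow (D : Derivation ℤ K K) {a : K} (ha : a ≠ 0) (n : ℕ) :
    D (a ^ n) / a ^ n = n * (D a / a) := by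
  rcases n with _ | n
  · simp
  · rw [D_pow, Nat.add_sub_cancel, pow_succ]
    field_simp

/-- the uniformizer has a logarithmic derivative which is not worse than `D` on regular
elements -/
theorem ld_pi (hov : Over P q e) (D : Derivation ℤ K K)
    (hD : ∀ g : F, P.Reg (D (algebraMap F K g) / algebraMap F K g)) (C : ℤ) (hC : C ≤ 0)
    (π : K) (hπ0 : π ≠ 0) (hπ : P.ord π = 1) (h : ∀ r, P.Reg r → Ge P C (D r)) :
    Ge P C (D π / π) := by
  obtain ⟨t, ht0, ht⟩ := q.surj
  have hp0 : algebraMap F K t ≠ 0 := by simpa using ht0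
  have hpord : P.ord (algebraMap F K t) = e := by rw [hov.2, ht, mul_one]
  have he := hov.1
  have hπe : π ^ e ≠ 0 := pow_ne_zero _ hπ0
  set ε : K := π ^ e / algebraMap F K t with hε
  have hε0 : ε ≠ 0 := div_ne_zero hπe hp0
  have hεord : P.ord ε = 0 := by
    rw [hε, P.ord_div hπe hp0, P.ord_pow, hπ, hpord]; ring
  have h1 : π ^ e = algebraMap F K t * ε := by
    rw [hε, mul_div_cancel₀ _ hp0]
  have h2 : (e : K) * (D π / π) = D (algebraMap F K t) / algebraMap F K t + D ε / ε := by
    rw [← ld_pow D hπ0, h1, ld_mul D hp0 hε0]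
  have h3 : Ge P C (D ε / ε) := by
    apply Ge.of_mul' (h := ε) (m := 0) hε0 hεord
    rw [mul_div_cancel₀ _ hε0, add_zero]
    exact h ε (Or.inr hεord.ge)
  have h4 : Ge P C ((e : K) * (D π / π)) := by
    rw [h2]
    exact (Ge.mono hC (hD t)).add h3
  have hchar : CharZero K := charZero_of_injective_algebraMap (algebraMap k K).injective
  have he0 : (e : K) ≠ 0 := by
    exact_mod_cast he.ne'
  have heord : P.ord (e : K) = 0 := by
    have := P.ord_const (c := (e : k)) (by exact_mod_cast he.ne')
    rwa [map_natCast] at this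
  exact Ge.of_mul' (m := 0) he0 heord (by simpa using h4)

theorem part1 (hov : Over P q e) (D : Derivation ℤ K K)
    (hD : ∀ g : F, P.Reg (D (algebraMap F K g) / algebraMap F K g)) :
    ∀ h : K, P.Reg (D h / h) := by
  have hD' : ∀ g : F, q.Reg g → P.Reg (D (algebraMap F K g)) := by
    intro g hg
    by_cases h0 : algebraMap F K g = 0
    · rw [h0, map_zero]
      exact P.reg_zero
    · have := P.reg_mul (hD g) (hov.reg.2 hg)
      rwa [div_mul_cancel₀ _ h0] at this
  obtain ⟨π, hπ0, hπ⟩ := P.surj
  obtain ⟨C, hC⟩ := bdd hov D hD'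
  have key : ∀ C : ℕ, (∀ r, P.Reg r → Ge P (-(C : ℤ)) (D r)) → ∀ r, P.Reg r → Ge P 0 (D r) := by
    intro C
    induction C with
    | zero =>
      intro h
      simpa using h
    | succ C ih =>
      intro h
      apply ih
      apply step hov D hD' _ (by omega) π hπ0 hπ
      intro r hr
      have h1 := ld_pi hov D hD (-((C + 1 : ℕ) : ℤ)) (by omega) π hπ0 hπ h
      have h2 : Ge P 1 π := Or.inr hπ.ge
      rw [D_mul]
      have h3 := h2.mul (h r hr)
      have h4 : Ge P (-(C : ℤ)) (π * D r) := by
        convert h3 using 1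
        push_cast; ring
      have h5 := (h2.mul h1)
      rw [mul_div_cancel₀ _ hπ0] at h5
      have h6 : Ge P (-(C : ℤ)) (D π) := by
        convert h5 using 1
        push_cast; ring
      have h7 : Ge P 0 r := hr
      have h8 := h7.mul h6
      rw [zero_add] at h8
      exact h4.add h8
  have hfin := key C hC
  have hpi := ld_pi hov D hD 0 le_rfl π hπ0 hπ hfin
  -- regular elements
  have hr : ∀ h : K, h ≠ 0 → 0 ≤ P.ord h → P.Reg (D h / h) := by
    intro h h0 hh
    obtain ⟨n, hn⟩ := Int.eq_ofNat_of_zero_le hh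
    have hπn : π ^ n ≠ 0 := pow_ne_zero _ hπ0
    set u : K := h / π ^ n with hu
    have hu0 : u ≠ 0 := div_ne_zero h0 hπn
    have huord : P.ord u = 0 := by
      rw [hu, P.ord_div h0 hπn, P.ord_pow, hπ, hn]
      simp
    have h1 : h = π ^ n * u := by rw [hu, mul_div_cancel₀ _ hπn]
    rw [h1, ld_mul D hπn hu0, ld_pow D hπ0]
    have h2 : Ge P 0 (D u / u) := by
      apply Ge.of_mul' (h := u) (m := 0) hu0 huord
      rw [mul_div_cancel₀ _ hu0, add_zero]
      exact hfin u (Or.inr huord.ge)
    have h3 := (Ge.natCast (P := P) n).mul hpi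
    rw [add_zero] at h3
    exact h3.add h2
  intro h
  by_cases h0 : h = 0
  · left
    rw [h0, div_zero]
  · rcases le_or_gt 0 (P.ord h) with hh | hh
    · exact hr h h0 hh
    · have h1 := hr h⁻¹ (inv_ne_zero h0) (by rw [P.ord_inv]; omega)
      have h2 : D h⁻¹ / h⁻¹ = - (D h / h) := by
        have h3 := ld_mul D h0 (inv_ne_zero h0)
        rw [mul_inv_cancel₀ h0, D.map_one_eq_zero, zero_div] at h3
        linear_combination -h3
      rw [h2] at h1
      have := P.reg_neg h1
      rwa [neg_neg] at this

theorem part2 (hov : Over P q e) (he : e = 1) (D : Derivation ℤ K K)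
    (hD : ∀ g : F, q.Reg g → P.Reg (D (algebraMap F K g))) :
    ∀ h : K, P.Reg h → P.Reg (D h) := by
  obtain ⟨t, ht0, ht⟩ := q.surj
  have hπ0 : algebraMap F K t ≠ 0 := by simpa using ht0
  have hπ : P.ord (algebraMap F K t) = 1 := by rw [hov.2, ht, he]; rfl
  obtain ⟨C, hC⟩ := bdd hov D hD
  have key : ∀ C : ℕ, (∀ r, P.Reg r → Ge P (-(C : ℤ)) (D r)) → ∀ r, P.Reg r → Ge P 0 (D r) := by
    intro C
    induction C with
    | zero =>
      intro h
      simpa using h
    | succ C ih =>
      intro h
      apply ih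
      apply step hov D hD _ (by omega) (algebraMap F K t) hπ0 hπ
      intro r hr
      have h2 : Ge P 1 (algebraMap F K t) := Or.inr hπ.ge
      rw [D_mul]
      have h3 := h2.mul (h r hr)
      have h4 : Ge P (-(C : ℤ)) (algebraMap F K t * D r) := by
        convert h3 using 1
        push_cast; ring
      have h6 : Ge P 0 (r * D (algebraMap F K t)) :=
        P.reg_mul hr (hD t (Or.inr (by omega)))
      exact h4.add (h6.mono (by omega))
  exact key C hC

end

/-- **Job OG-E5.** -/
theorem t_der : St_der := by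
  intro k F K _ _ _ _ _ _ _ _ _ q P e hov D
  exact ⟨part1 hov D, fun he hD => part2 hov he D hD⟩

end Pool.Agent.Y447.OG
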